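import Mathlib
import Pool.Agent.Helper21.W4.St1

/-!
# Project W4, module Int
-/

set_option autoImplicit false

namespace Pool.Agent.Helper15.W4

open Pool.Agent.Helper21.W4 Finset

theorem int_row (B : ℕ) (g : ℕ → ℕ) (m : ℕ) (hm : m ≤ B) (hg : ∀ q, 0 < g q ↔ q < m) :
    ∑ q ∈ range B, g q = m + ∑ q ∈ range B, (g q - 1) := by
  have h1 : ∑ q ∈ range B, (if q < m then 1 else 0) = m := by
    rw [← Finset.sum_filter, ← Finset.card_eq_sum_ones]
    have : (range B).filter (fun q => q < m) = range m := by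
      ext q
      simp only [Finset.mem_filter, Finset.mem_range]
      omega
    rw [this, Finset.card_range]
  have h2 : m + ∑ q ∈ range B, (g q - 1) =
      ∑ q ∈ range B, ((if q < m then 1 else 0) + (g q - 1)) := by
    rw [Finset.sum_add_distrib, h1]
  rw [h2]
  refine Finset.sum_congr rfl fun q _ => ?_
  have := hg q
  split_ifs with h
  · have := (hg q).2 h
    omega
  · have : ¬ 0 < g q := fun h' => h ((hg q).1 h')
    omega

theorem hInt : StInt := by
  intro B h1 h2 h3 hP
  unfold intS ar bk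
  rw [← Finset.sum_add_distrib]
  refine Finset.sum_congr rfl fun p _ => ?_
  refine int_row B (fun q => h3 (p + 1) (q + 1)) (h2 (p + 1) 0 - 1) ?_ ?_
  · by_contra hc
    push Not at hc
    have h4 : B + 1 < h2 (p + 1) 0 := by omega
    have h5 := hP.bd (p + 1) (B + 1) 0 ((hP.e12 (p + 1) (B + 1) 0).2 h4)
    omega
  · intro q
    show 0 < h3 (p + 1) (q + 1) ↔ q < h2 (p + 1) 0 - 1
    rw [← hP.e13 (p + 1) (q + 1) 0, hP.e12 (p + 1) (q + 1) 0]
    omega

end Pool.Agent.Helper15.W4
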