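import Mathlib
import Pool.Agent.Helper21.W4.St3

/-!
# Project W4, module N3f
-/

set_option autoImplicit false

namespace Pool.Agent.Helper15.W4

open Pool.Agent.Helper21.W4 Finset

theorem n3f_good (Z V Y : ℤ) (h : Z ≤ Y) (hY : 2 * Y ^ 2 ≤ 36 * V) : Good Z V := by
  unfold Good
  by_cases hZ : Z ≤ 0
  · exact Or.inl hZ
  · right
    push Not at hZ
    have : Z ^ 2 ≤ Y ^ 2 := pow_le_pow_left₀ hZ.le h 2
    linarith

theorem hN3f : StN3f := by
  intro H e k D z z' K a Z V hH he hk hke hkD hDk hz hz' hK hK2 hK0 ha hZ hV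
  obtain ⟨s, hs⟩ : ∃ s : ℤ, s = z + z' := ⟨_, rfl⟩
  have hs0 : 0 ≤ s := by linarith
  have hzz : s * s ≤ 2 * (z * z + z' * z') := by
    rw [hs]; nlinarith [sq_nonneg (z - z')]
  have hV2 : 18 * (18 + 8 * H - e + e * e + 2 * D + 3 * s - 2 * K) + 9 * (s * s)
      ≤ 36 * V := by
    rw [← hs] at hV
    linarith
  obtain ⟨d, hd⟩ : ∃ d : ℤ, d = D + k - e := ⟨_, rfl⟩
  have hd1 : d ≤ 2 * e := by linarith
  have hd2 : d ≤ D := by linarith
  obtain ⟨q, hq⟩ : ∃ q : ℤ, q = d + s - 3 * K := ⟨_, rfl⟩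
  have hZq : Z ≤ 12 + q := by linarith
  have hee : 0 ≤ e * e - e := by
    have : 0 ≤ (e - 1) * e := mul_nonneg (by linarith) (by linarith)
    linarith
  have hss : 0 ≤ s * s := mul_nonneg hs0 hs0
  by_cases hq3 : q ≤ -3
  · refine n3f_good Z V 9 (by linarith) ?_
    linarith
  · push Not at hq3
    refine n3f_good Z V (12 + q) hZq ?_
    obtain ⟨r, hr⟩ : ∃ r : ℤ, r = 2 * e - d := ⟨_, rfl⟩
    have hr0 : 0 ≤ r := by linarith
    have h1 : 0 ≤ r * (12 + 4 * q + 2 * r) := mul_nonneg hr0 (by linarith)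
    have hKK : K = 0 ∨ K = 1 ∨ K = 2 := by omega
    have hsq : 0 ≤ 49 * (s * s) - 56 * (e * s) + 16 * (e * e) := by
      have := sq_nonneg (7 * s - 4 * e)
      have h : (7 * s - 4 * e) ^ 2 = 49 * (s * s) - 56 * (e * s) + 16 * (e * e) := by ring
      rwa [h] at this
    have hsq2 : 0 ≤ e * e - 4 * e + 4 := by
      have := sq_nonneg (e - 2)
      have h : (e - 2) ^ 2 = e * e - 4 * e + 4 := by ring
      rwa [h] at this
    have h2 : 2 * q ^ 2 ≤ -12 * d + 24 * e + 2 * (2 * e + s - 3 * K) ^ 2 := by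
      have e1 : 2 * e + s - 3 * K = q + r := by rw [hq, hr]; ring
      have e2 : d = 2 * e - r := by rw [hr]; ring
      have e3 : r * (12 + 4 * q + 2 * r) = 12 * r + 4 * (q * r) + 2 * (r * r) := by ring
      have e4 : (q + r) ^ 2 = q ^ 2 + 2 * (q * r) + r * r := by ring
      rw [e1, e4, e2]
      rw [e3] at h1
      linarith
    have h3 : (12 + q) ^ 2 = 144 + 24 * q + q ^ 2 := by ring
    have h4 : (2 * e + s - 3 * K) ^ 2 =
        4 * (e * e) + 4 * (e * s) + s * s - 6 * K * (2 * e + s) + 9 * K ^ 2 := by ring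
    rw [h3]
    rw [h4] at h2
    rcases hKK with h | h | h
    · have h5 := hK0 h
      subst h
      linarith
    · subst h
      linarith
    · subst h
      linarith

end Pool.Agent.Helper15.W4
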