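import Mathlib
import Pool.Agent.Helper21.W4.St3

/-!
# Project W4, module N3m
-/

set_option autoImplicit false

namespace Pool.Agent.Helper15.W4

open Pool.Agent.Helper21.W4 Finset

theorem n3m_good (Z V Y : ℤ) (h : Z ≤ Y) (h0 : 0 ≤ Y) (hY : 2 * Y ^ 2 ≤ 36 * V) : Good Z V := by
  unfold Good
  by_cases hZ : Z ≤ 0
  · exact Or.inl hZ
  · right
    push Not at hZ
    have : Z ^ 2 ≤ Y ^ 2 := pow_le_pow_left₀ hZ.le h 2
    linarith

theorem n3m_A (H s k : ℤ) (hH : 0 ≤ H) (hs : 0 ≤ s) (hsH : s ≤ 2 * H) (hk : 1 ≤ k) :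
    0 ≤ 60 * H + 36 - 30 * k + 6 * s + (s - 4 * k) ^ 2 := by
  by_cases h : k ≤ 2 * H + 1
  · nlinarith [sq_nonneg (s - 4 * k)]
  · push Not at h
    have h1 : 3 * k + 2 ≤ 4 * k - s := by linarith
    have h2 : (3 * k + 2) ^ 2 ≤ (4 * k - s) ^ 2 := pow_le_pow_left₀ (by linarith) h1 2
    have h3 : (s - 4 * k) ^ 2 = (4 * k - s) ^ 2 := by ring
    nlinarith [sq_nonneg (k - 1)]

theorem n3m_B (H s k : ℤ) (hH : 0 ≤ H) (hs : 0 ≤ s) (hsH : s ≤ 2 * H) :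
    0 ≤ 96 * H + 42 - 66 * k + 6 * s + (s - 4 * (k + 1)) ^ 2 := by
  by_cases h : k ≤ H
  · nlinarith [sq_nonneg (s - 4 * (k + 1))]
  · push Not at h
    obtain ⟨j, hj⟩ : ∃ j : ℤ, k = H + j := ⟨k - H, by ring⟩
    have hj1 : 1 ≤ j := by linarith
    have h1 : 4 * j + 4 ≤ 4 * (k + 1) - s := by linarith
    have h2 : (4 * j + 4) ^ 2 ≤ (4 * (k + 1) - s) ^ 2 := pow_le_pow_left₀ (by linarith) h1 2
    have h3 : (s - 4 * (k + 1)) ^ 2 = (4 * (k + 1) - s) ^ 2 := by ring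
    rw [hj] at *
    nlinarith [sq_nonneg (j - 1)]

theorem n3m_e (e k : ℤ) (hk : 1 ≤ k) (hke : k ≤ e) : k * k - 3 * k ≤ e * e - 3 * e := by
  rcases hke.lt_or_eq with h | h
  · nlinarith [mul_nonneg (by linarith : (0 : ℤ) ≤ e - k) (by linarith : (0 : ℤ) ≤ e + k - 3)]
  · rw [h]

theorem n3m_e0 (e : ℤ) (he : 1 ≤ e) : -2 ≤ e * e - 3 * e := by
  rcases he.lt_or_eq with h | h
  · nlinarith [mul_nonneg (by linarith : (0 : ℤ) ≤ e - 1) (by linarith : (0 : ℤ) ≤ e - 2)]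
  · rw [← h]; norm_num

theorem hN3m : StN3m := by
  intro H e k D y z z' θ a Z V hH he hk hke hkD hy hy1 hz hzH hz' hzH' hθH hθz ha hZ hV
  obtain ⟨s, hs⟩ : ∃ s : ℤ, s = z + z' := ⟨_, rfl⟩
  have hs0 : 0 ≤ s := by linarith
  have hsH : s ≤ 2 * H := by linarith
  obtain ⟨φ, hφ⟩ : ∃ φ : ℤ, φ = max (θ + s) 0 := ⟨_, rfl⟩
  have hφ0 : 0 ≤ φ := by rw [hφ]; exact le_max_right _ _
  have hφ1 : θ + s ≤ φ := by rw [hφ]; exact le_max_left _ _
  have hφ2 : φ ≤ 2 * s := by rw [hφ]; exact max_le (by linarith) (by linarith)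
  have hφ3 : φ ≤ H + s := by rw [hφ]; exact max_le (by linarith) (by linarith)
  have hzz : s * s ≤ 2 * (z * z + z' * z') := by
    rw [hs]; nlinarith [sq_nonneg (z - z')]
  refine n3m_good Z V (12 + k + y + φ) (by linarith) (by linarith) ?_
  have hV2 : 18 * (4 * k + (e * e - 3 * e) + 18 + 6 * H + 3 * s + 2 * y * (H + 2)) + 9 * (s * s)
      ≤ 36 * V := by
    rw [← hs] at hV
    linarith
  have hsq : (k + y + φ) ^ 2 ≤ (k + y + 2 * s) ^ 2 :=
    pow_le_pow_left₀ (by linarith) (by linarith) 2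
  have hY : (12 + k + y + φ) ^ 2 = 144 + 24 * (k + y + φ) + (k + y + φ) ^ 2 := by ring
  rw [hY]
  have hyy : y = 0 ∨ y = 1 := by omega
  rcases hk.lt_or_eq with hk1 | hk0
  · have hk1' : 1 ≤ k := by omega
    have hek := n3m_e e k hk1' hke
    rcases hyy with h | h
    · subst h
      have := n3m_A H s k hH hs0 hsH hk1'
      nlinarith
    · subst h
      have := n3m_B H s k hH hs0 hsH
      nlinarith
  · subst hk0
    have hek := n3m_e0 e he
    rcases hyy with h | h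
    · subst h
      nlinarith [mul_nonneg hs0 hs0]
    · subst h
      nlinarith [sq_nonneg (s - 1), mul_nonneg hs0 hs0]

end Pool.Agent.Helper15.W4
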