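import Mathlib
import Pool.Agent.Helper21.W4.St3

/-!
# Project W4, module NF
-/

set_option autoImplicit false

namespace Pool.Agent.Helper15.W4

open Pool.Agent.Helper21.W4 Finset

theorem nf_good (Z V Y : ℤ) (h : Z ≤ Y) (hY : 2 * Y ^ 2 ≤ 36 * V) : Good Z V := by
  unfold Good
  by_cases hZ : Z ≤ 0
  · exact Or.inl hZ
  · right
    push Not at hZ
    have : Z ^ 2 ≤ Y ^ 2 := pow_le_pow_left₀ hZ.le h 2
    linarith

theorem nf_e (e : ℤ) : 0 ≤ (e - 2) * (e - 3) := by
  rcases le_or_gt e 2 with h | h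
  · exact mul_nonneg_of_nonpos_of_nonpos (by linarith) (by linarith)
  · exact mul_nonneg (by linarith) (by omega)

theorem hNF : StNF := by
  intro c b e k D z z' a Z V hc hc12 hcb he hk hke hkD hDk hz hz' ha hZ hV
  obtain ⟨s, hs⟩ : ∃ s : ℤ, s = z + z' := ⟨_, rfl⟩
  have hs0 : 0 ≤ s := by linarith
  have hzz : s * s ≤ 2 * (z * z + z' * z') := by
    rw [hs]; nlinarith [sq_nonneg (z - z')]
  have hV2 : 2 * (c * c) + 48 + 18 * (e * e - e) + 36 * D + 54 * s + 9 * (s * s) ≤ 36 * V := by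
    rw [← hs] at hV
    linarith
  obtain ⟨d, hd⟩ : ∃ d : ℤ, d = D + k - e := ⟨_, rfl⟩
  have hd1 : d ≤ 2 * e := by linarith
  have hd2 : d ≤ D := by linarith
  have hee : 0 ≤ e * e - e := by nlinarith
  by_cases hdn : d < 0
  · refine nf_good Z V (c + s) (by linarith) ?_
    have h1 : c * s ≤ 12 * s := mul_le_mul_of_nonneg_right hc12 hs0
    nlinarith [mul_nonneg hs0 hs0]
  · push Not at hdn
    refine nf_good Z V (c + d + s) (by linarith) ?_
    have h1 : c * (d + s) ≤ 12 * (d + s) := mul_le_mul_of_nonneg_right hc12 (by linarith)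
    have h2 : (c + d + s) ^ 2 = c * c + 2 * (c * (d + s)) + (d + s) ^ 2 := by ring
    rw [h2]
    have h3 : 0 ≤ (2 * e - d) * (12 + 4 * e + 4 * s) :=
      mul_nonneg (by linarith) (by linarith)
    have h4 : 0 ≤ d * (2 * e - d) := mul_nonneg hdn (by linarith)
    have h5 := nf_e e
    have h6 := sq_nonneg (7 * s + 3 - 4 * e)
    nlinarith

end Pool.Agent.Helper15.W4
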