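import Mathlib
import Pool.Agent.Helper21.W4.St3

/-!
# Project W4, module NG
-/

set_option autoImplicit false

namespace Pool.Agent.Helper15.W4

open Pool.Agent.Helper21.W4 Finset

theorem ng_good (Z V Y : ℤ) (h : Z ≤ Y) (hY : 2 * Y ^ 2 ≤ 36 * V) : Good Z V := by
  unfold Good
  by_cases hZ : Z ≤ 0
  · exact Or.inl hZ
  · right
    push Not at hZ
    have : Z ^ 2 ≤ Y ^ 2 := pow_le_pow_left₀ hZ.le h 2
    linarith

theorem ng_e (e k : ℤ) (hk : 1 ≤ k) (hke : k ≤ e) : k * k - 3 * k ≤ e * e - 3 * e := by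
  rcases hke.lt_or_eq with h | h
  · nlinarith [mul_nonneg (by linarith : (0 : ℤ) ≤ e - k) (by linarith : (0 : ℤ) ≤ e + k - 3)]
  · rw [h]

theorem ng_e0 (e : ℤ) (he : 1 ≤ e) : -2 ≤ e * e - 3 * e := by
  rcases he.lt_or_eq with h | h
  · nlinarith [mul_nonneg (by linarith : (0 : ℤ) ≤ e - 1) (by linarith : (0 : ℤ) ≤ e - 2)]
  · rw [← h]; norm_num

theorem hNG : StNG := by
  intro c b e k D z z' a Z V hc hc14 hcb he hk hke hkD hz hz' ha hZ hV
  obtain ⟨s, hs⟩ : ∃ s : ℤ, s = z + z' := ⟨_, rfl⟩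
  have hs0 : 0 ≤ s := by linarith
  have hzz : s * s ≤ 2 * (z * z + z' * z') := by
    rw [hs]; nlinarith [sq_nonneg (z - z')]
  have hV2 : 18 * (2 * b + 4 * k + (e * e - 3 * e) + 4 + 3 * s) + 9 * (s * s)
      ≤ 36 * V := by
    rw [← hs] at hV
    linarith
  refine ng_good Z V (c + k + s) (by linarith) ?_
  have h1 : c * (k + s) ≤ 14 * (k + s) := mul_le_mul_of_nonneg_right hc14 (by linarith)
  have h2 : (c + k + s) ^ 2 = c * c + 2 * (c * (k + s)) + (k + s) ^ 2 := by ring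
  rw [h2]
  rcases hk.lt_or_eq with hk1 | hk0
  · have hk1' : 1 ≤ k := by omega
    have hek := ng_e e k hk1' hke
    nlinarith [sq_nonneg (7 * s - 2 * k - 1), sq_nonneg (k - 1)]
  · subst hk0
    have hek := ng_e0 e he
    rcases hs0.lt_or_eq with h | h
    · nlinarith
    · rw [← h] at *
      nlinarith

end Pool.Agent.Helper15.W4
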